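import Pool.Agent.Y5.V.Stm

/-!
# Project VL: the series of `|k|^{-4}` over the nonzero points of `ℤ³` converges
-/

set_option autoImplicit false

namespace Pool.Agent.Y932.VL.Sum

open Finset
open Pool.Agent.Y6.M (Z3 nsq len)

noncomputable def gf (n : ℤ) : ℝ := (1 + (n : ℝ) ^ 2) ^ (-(2 / 3) : ℝ)

theorem gf_nonneg (n : ℤ) : 0 ≤ gf n := Real.rpow_nonneg (by positivity) _

theorem gf_sum : Summable gf := by
  have h1 : Summable fun n : ℤ => |(n : ℝ)| ^ (-(4 / 3) : ℝ) :=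
    Real.summable_abs_int_rpow (by norm_num)
  have h2 : Summable (fun n : ℤ => if n = 0 then (1 : ℝ) else 0) :=
    (hasSum_ite_eq 0 (1 : ℝ)).summable
  refine Summable.of_nonneg_of_le gf_nonneg (fun n => ?_) (h1.add h2)
  unfold gf
  by_cases hn : n = 0
  · subst hn
    have h3 : (0 : ℝ) ≤ |((0 : ℤ) : ℝ)| ^ (-(4 / 3) : ℝ) := Real.rpow_nonneg (abs_nonneg _) _
    have h4 : (1 + ((0 : ℤ) : ℝ) ^ 2) ^ (-(2 / 3) : ℝ) = 1 := by
      norm_num
    rw [h4, if_pos rfl]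
    linarith
  · rw [if_neg hn, add_zero]
    have h3 : 0 < |(n : ℝ)| := abs_pos.2 (by exact_mod_cast hn)
    have h4 : |(n : ℝ)| ^ (-(4 / 3) : ℝ) = (|(n : ℝ)| ^ 2) ^ (-(2 / 3) : ℝ) := by
      rw [← Real.rpow_natCast, ← Real.rpow_mul h3.le]
      norm_num
    rw [h4]
    refine Real.rpow_le_rpow_of_nonpos (by positivity) ?_ (by norm_num)
    rw [sq_abs]
    linarith

theorem nsq3 (k : Z3) : (nsq k : ℝ) = (k 0 : ℝ) ^ 2 + (k 1 : ℝ) ^ 2 + (k 2 : ℝ) ^ 2 := by
  unfold nsq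
  rw [Fin.sum_univ_three]
  push_cast
  ring

theorem nsq_one (k : Z3) (hk : k ≠ 0) : (1 : ℝ) ≤ nsq k := by
  have h1 : 0 < nsq k := by
    unfold nsq
    refine lt_of_le_of_ne (Finset.sum_nonneg fun j _ => sq_nonneg _) ?_
    intro h0
    apply hk
    have h2 := (Finset.sum_eq_zero_iff_of_nonneg (fun j _ => sq_nonneg (k j))).1 h0.symm
    ext j
    have h3 := h2 j (Finset.mem_univ j)
    simpa using h3
  exact_mod_cast h1

theorem t_SUM : Pool.Agent.Y5.V.S_SUM := by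
  show Summable fun k : Z3 => if k = 0 then (0 : ℝ) else (len k ^ 4)⁻¹
  have hf := gf_sum
  have hf0 : 0 ≤ gf := gf_nonneg
  have h2 : Summable (fun p : ℤ × ℤ => gf p.1 * gf p.2) := hf.mul_of_nonneg hf hf0 hf0
  have h2' : (0 : ℤ × ℤ → ℝ) ≤ fun p : ℤ × ℤ => gf p.1 * gf p.2 :=
    fun p => mul_nonneg (gf_nonneg _) (gf_nonneg _)
  have h3 : Summable (fun p : ℤ × (ℤ × ℤ) => gf p.1 * (gf p.2.1 * gf p.2.2)) :=
    hf.mul_of_nonneg h2 hf0 h2'
  have h4 := (h3.mul_left 4).comp_injective (i := fun k : Z3 => (k 0, (k 1, k 2))) (by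
    intro k l h
    simp only [Prod.mk.injEq] at h
    ext j
    fin_cases j
    · exact h.1
    · exact h.2.1
    · exact h.2.2)
  refine Summable.of_nonneg_of_le (fun k => ?_) (fun k => ?_) h4
  · split_ifs
    · exact le_rfl
    · unfold len
      positivity
  · show (if k = 0 then (0 : ℝ) else (len k ^ 4)⁻¹) ≤ 4 * (gf (k 0) * (gf (k 1) * gf (k 2)))
    have hg0 := gf_nonneg (k 0)
    have hg1 := gf_nonneg (k 1)
    have hg2 := gf_nonneg (k 2)
    split_ifs with hk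
    · positivity
    · have h5 := nsq_one k hk
      have h6 : len k ^ 4 = (nsq k : ℝ) ^ 2 := by
        unfold len
        have : √(nsq k : ℝ) ^ 4 = (√(nsq k : ℝ) ^ 2) ^ 2 := by ring
        rw [this, Real.sq_sqrt (by linarith)]
      rw [h6]
      set q : ℝ := 1 + (nsq k : ℝ) with hq
      have hq0 : 0 < q := by rw [hq]; linarith
      have hb : ∀ j : Fin 3, q ^ (-(2 / 3) : ℝ) ≤ gf (k j) := by
        intro j
        unfold gf
        refine Real.rpow_le_rpow_of_nonpos (by positivity) ?_ (by norm_num)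
        rw [hq, nsq3]
        have e0 := sq_nonneg (k 0 : ℝ)
        have e1 := sq_nonneg (k 1 : ℝ)
        have e2 := sq_nonneg (k 2 : ℝ)
        fin_cases j <;> simp <;> linarith
      have h7 : (q ^ 2)⁻¹ = q ^ (-(2 / 3) : ℝ) * (q ^ (-(2 / 3) : ℝ) * q ^ (-(2 / 3) : ℝ)) := by
        rw [← Real.rpow_add hq0, ← Real.rpow_add hq0, ← Real.rpow_natCast,
          ← Real.rpow_neg hq0.le]
        norm_num
      have hr : 0 ≤ q ^ (-(2 / 3) : ℝ) := Real.rpow_nonneg hq0.le _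
      have h8 : (q ^ 2)⁻¹ ≤ gf (k 0) * (gf (k 1) * gf (k 2)) := by
        rw [h7]
        exact mul_le_mul (hb 0) (mul_le_mul (hb 1) (hb 2) hr hg1) (mul_nonneg hr hr) hg0
      have h9 : ((nsq k : ℝ) ^ 2)⁻¹ ≤ 4 * (q ^ 2)⁻¹ := by
        rw [← div_eq_mul_inv, inv_eq_one_div, div_le_div_iff₀ (by positivity) (by positivity)]
        rw [hq]
        nlinarith
      linarith

end Pool.Agent.Y932.VL.Sum
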